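import Mathlib

set_option autoImplicit false
set_option linter.unusedVariables false

namespace Pool.Agent.DC10

open Set Topology

theorem card_fact : Cardinal.aleph0 < Cardinal.aleph 1 := Cardinal.aleph0_lt_aleph_one

/-- omega one -/
def X : Type := (Cardinal.aleph 1 : Cardinal.{0}).ord.ToType

noncomputable instance : LinearOrder X :=
  inferInstanceAs (LinearOrder (Cardinal.aleph 1 : Cardinal.{0}).ord.ToType)
instance : WellFoundedLT X :=
  inferInstanceAs (WellFoundedLT (Cardinal.aleph 1 : Cardinal.{0}).ord.ToType)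
instance : NoMaxOrder X := Cardinal.noMaxOrder card_fact.le

theorem mk_X : Cardinal.mk X = Cardinal.aleph 1 := by
  show Cardinal.mk ((Cardinal.aleph 1 : Cardinal.{0}).ord.ToType) = _
  simp

instance : Nonempty X := by
  rw [← Cardinal.mk_ne_zero_iff, mk_X]
  exact (Cardinal.aleph0_pos.trans card_fact).ne'

theorem bdd (f : ℕ → X) : ∃ b, ∀ i, f i ≤ b := by
  let f' : ℕ → (Cardinal.aleph 1 : Cardinal.{0}).ord.ToType := f
  let g : ℕ → Ordinal.{0} := fun i => (Ordinal.ToType.mk.symm (f' i)).1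
  have hg : ∀ i, g i < (Cardinal.aleph 1 : Cardinal.{0}).ord :=
    fun i => (Ordinal.ToType.mk.symm (f' i)).2
  have hsup : iSup g < (Cardinal.aleph 1 : Cardinal.{0}).ord :=
    Ordinal.iSup_lt_of_lt_cof (by
      rw [Cardinal.isRegular_aleph_one.cof_ord, Cardinal.mk_nat]
      exact card_fact) hg
  refine ⟨(Ordinal.ToType.mk ⟨iSup g, hsup⟩ : (Cardinal.aleph 1 : Cardinal.{0}).ord.ToType),
    fun i => ?_⟩
  show f' i ≤ Ordinal.ToType.mk ⟨iSup g, hsup⟩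
  rw [← OrderIso.symm_apply_le]
  show g i ≤ iSup g
  exact Ordinal.le_iSup g i

/-- the Johnstone type poset over omega one -/
def P : Type := X × WithTop X

def le (p q : P) : Prop := (p.1 = q.1 ∧ p.2 ≤ q.2) ∨ (q.2 = ⊤ ∧ p.2 ≤ (q.1 : WithTop X))

theorem not_top_le (c : X) (h : (⊤ : WithTop X) ≤ (c : WithTop X)) : False :=
  WithTop.coe_ne_top (top_le_iff.1 h)

noncomputable instance : PartialOrder P where
  le := le
  le_refl p := Or.inl ⟨rfl, le_rfl⟩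
  le_trans := by
    rintro ⟨a, b⟩ ⟨c, d⟩ ⟨e, f⟩ h1 h2
    rcases h1 with ⟨h1, h1'⟩ | ⟨h1, h1'⟩ <;> rcases h2 with ⟨h2, h2'⟩ | ⟨h2, h2'⟩ <;>
      simp only at h1 h1' h2 h2'
    · exact Or.inl ⟨h1.trans h2, h1'.trans h2'⟩
    · exact Or.inr ⟨h2, h1'.trans h2'⟩
    · subst h2
      rw [h1] at h2'
      exact Or.inr ⟨top_le_iff.1 h2', h1'⟩
    · rw [h1] at h2'
      exact (not_top_le _ h2').elim
  le_antisymm := by
    rintro ⟨a, b⟩ ⟨c, d⟩ h1 h2
    rcases h1 with ⟨h1, h1'⟩ | ⟨h1, h1'⟩ <;> rcases h2 with ⟨h2, h2'⟩ | ⟨h2, h2'⟩ <;>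
      simp only at h1 h1' h2 h2'
    · exact Prod.ext h1 (le_antisymm h1' h2')
    · rw [h2] at h1'
      rw [top_le_iff.1 h1'] at h2'
      exact (not_top_le _ h2').elim
    · rw [h1] at h2'
      rw [top_le_iff.1 h2'] at h1'
      exact (not_top_le _ h1').elim
    · rw [h2] at h1'
      exact (not_top_le _ h1').elim

theorem le_def (p q : P) : p ≤ q ↔ (p.1 = q.1 ∧ p.2 ≤ q.2) ∨
  (q.2 = ⊤ ∧ p.2 ≤ (q.1 : WithTop X)) := Iff.rfl

/-- constructor -/
def mk (e : X) (b : WithTop X) : P := (e, b)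

theorem mk_le {e : X} {b b' : WithTop X} (h : b ≤ b') : mk e b ≤ mk e b' := Or.inl ⟨rfl, h⟩

/-- every set has a least upper bound in the chain -/
theorem exists_lub (S : Set (WithTop X)) : ∃ z, IsLUB S z := by
  obtain ⟨z, hz, hmin⟩ := WellFounded.has_min (wellFounded_lt (α := WithTop X))
    {z | z ∈ upperBounds S} ⟨⊤, fun t _ => le_top⟩
  exact ⟨z, hz, fun w hw => not_lt.1 (hmin w hw)⟩

theorem fiber_lub (e : X) (S : Set (WithTop X)) (hS : S.Nonempty) (z : WithTop X)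
    (hz : IsLUB S z) (x : P) (h : ∀ s ∈ S, (mk e s) ≤ x) : (mk e z) ≤ x := by
  obtain ⟨c, f⟩ := x
  rw [le_def]
  by_cases hc : e = c
  · left
    refine ⟨hc, hz.2 ?_⟩
    intro s hs
    rcases h s hs with ⟨_, h2⟩ | ⟨h1, _⟩
    · exact h2
    · simp only at h1
      show s ≤ f
      rw [h1]; exact le_top
  · right
    obtain ⟨s0, hs0⟩ := hS
    refine ⟨?_, hz.2 ?_⟩
    · rcases h s0 hs0 with ⟨h1, _⟩ | ⟨h1, _⟩
      · exact absurd h1 hc
      · exact h1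
    · intro s hs
      rcases h s hs with ⟨h1, _⟩ | ⟨_, h2⟩
      · exact absurd h1 hc
      · exact h2

theorem dcpo (d : Set P) (hne : d.Nonempty) (hdir : DirectedOn (· ≤ ·) d) :
    ∃ x : P, IsLUB d x := by
  by_cases h : ∃ e : X, (mk e ⊤) ∈ d
  · obtain ⟨e, he⟩ := h
    refine ⟨(mk e ⊤), ?_, fun y hy => hy he⟩
    intro y hy
    obtain ⟨z, hz, h1, h2⟩ := hdir _ he _ hy
    have : z = (mk e ⊤) := by
      rcases h1 with ⟨h3, h4⟩ | ⟨_, h4⟩
      · exact (Prod.ext h3 (top_le_iff.1 h4).symm).symm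
      · exact (not_top_le _ h4).elim
    rw [← this]; exact h2
  · push Not at h
    obtain ⟨⟨a, b⟩, hab⟩ := hne
    have hfib : ∀ y ∈ d, y.1 = a := by
      intro y hy
      obtain ⟨z, hz, h1, h2⟩ := hdir _ hab _ hy
      have hzt : z.2 ≠ ⊤ := fun hzt => h z.1 (by
        have : z = (mk (z.1) ⊤) := Prod.ext rfl hzt
        rwa [← this])
      rcases h1 with ⟨h3, _⟩ | ⟨h3, _⟩
      · rcases h2 with ⟨h4, _⟩ | ⟨h4, _⟩
        · rw [h4, ← h3]
        · exact absurd h4 hzt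
      · exact absurd h3 hzt
    obtain ⟨z, hz⟩ := exists_lub {b | (mk a b) ∈ d}
    refine ⟨(mk a z), ?_, ?_⟩
    · rintro ⟨y1, y2⟩ hy
      have h1 : y1 = a := hfib _ hy
      subst h1
      exact Or.inl ⟨rfl, hz.1 hy⟩
    · intro x hx
      exact fiber_lub a _ ⟨b, hab⟩ z hz x (fun s hs => hx hs)

/-- the topology -/
@[reducible] def tp : TopologicalSpace P where
  IsOpen U := IsUpperSet U ∧ ∀ (e : X) (S : Set (WithTop X)), S.Nonempty → ∀ z, IsLUB S z →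
    (mk e z) ∈ U → ∃ s ∈ S, (mk e s) ∈ U
  isOpen_univ := ⟨isUpperSet_univ, fun e S hS z _ _ => ⟨hS.some, hS.some_mem, trivial⟩⟩
  isOpen_inter := by
    rintro U V ⟨hU, hU'⟩ ⟨hV, hV'⟩
    refine ⟨hU.inter hV, ?_⟩
    intro e S hS z hz hmem
    obtain ⟨s, hs, hsU⟩ := hU' e S hS z hz hmem.1
    obtain ⟨t, ht, htV⟩ := hV' e S hS z hz hmem.2
    rcases le_total s t with h | h
    · exact ⟨t, ht, hU (mk_le h) hsU, htV⟩
    · exact ⟨s, hs, hsU, hV (mk_le h) htV⟩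
  isOpen_sUnion := by
    intro 𝒰 h
    refine ⟨isUpperSet_sUnion (fun U hU => (h U hU).1), ?_⟩
    rintro e S hS z hz ⟨U, hU, hmem⟩
    obtain ⟨s, hs, hsU⟩ := (h U hU).2 e S hS z hz hmem
    exact ⟨s, hs, U, hU, hsU⟩

attribute [local instance] tp

theorem open_iff (U : Set P) : IsOpen U ↔ IsUpperSet U ∧ ∀ (e : X) (S : Set (WithTop X)),
    S.Nonempty → ∀ z, IsLUB S z → (mk e z) ∈ U → ∃ s ∈ S, (mk e s) ∈ U := Iff.rfl

theorem closed_of (C : Set P) (hl : IsLowerSet C) (hs : ∀ (e : X) (S : Set (WithTop X)),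
    S.Nonempty → ∀ z, IsLUB S z → (∀ s ∈ S, (mk e s) ∈ C) → (mk e z) ∈ C) :
    IsClosed C := by
  rw [← isOpen_compl_iff, open_iff]
  refine ⟨hl.compl, ?_⟩
  intro e S hS z hz hmem
  by_contra hcon
  push Not at hcon
  apply hmem
  apply hs e S hS z hz
  intro s hs'
  by_contra h
  exact hcon s hs' h

theorem closure_pt (x : P) : closure ({x} : Set P) = Set.Iic (α := P) x := by
  apply Subset.antisymm
  · apply closure_minimal
    · rintro y (rfl : y = x); exact le_refl y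
    · apply closed_of
      · intro a b hab ha
        exact le_trans hab ha
      · intro e S hS z hz h
        exact fiber_lub e S hS z hz x h
  · intro y hy
    rw [mem_closure_iff]
    intro U hU hyU
    exact ⟨x, hU.1 hy hyU, rfl⟩

theorem fin_fibers (K : Set P) (hK : IsCompact K) : {e : X | ∃ b : X, (mk e (b : WithTop X)) ∈ K}.Finite := by
  by_contra hinf
  let em := Set.Infinite.natEmbedding _ hinf
  have hb : ∀ j, ∃ b : X, (mk ((em j).1) (b : WithTop X)) ∈ K := fun j => (em j).2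
  choose b hb using hb
  have hinj : ∀ i j, (em i).1 = (em j).1 → i = j := fun i j h => em.injective (Subtype.ext h)
  let C : ℕ → Set P := fun n => {p | ∃ j, n ≤ j ∧ p.1 = (em j).1 ∧ p.2 ≤ (b j : WithTop X)}
  have hC : ∀ n, IsClosed (C n) := by
    intro n
    apply closed_of
    · rintro ⟨p1, p2⟩ ⟨q1, q2⟩ hqp ⟨j, hj, h1, h2⟩
      rcases hqp with ⟨h3, h4⟩ | ⟨h3, h4⟩
      · exact ⟨j, hj, h3.trans h1, h4.trans h2⟩
      · simp only at h3 h2
        rw [h3] at h2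
        exact (not_top_le _ h2).elim
    · intro e S hS z hz h
      obtain ⟨s0, hs0⟩ := hS
      obtain ⟨j, hj, h1, _⟩ := h s0 hs0
      refine ⟨j, hj, h1, hz.2 ?_⟩
      intro s hs
      obtain ⟨i, hi, h3, h4⟩ := h s hs
      have : i = j := hinj i j (h3.symm.trans h1)
      rw [this] at h4
      exact h4
  have hcov : K ⊆ ⋃ n, (C n)ᶜ := by
    intro p _
    by_contra hcon
    simp only [mem_iUnion, mem_compl_iff, not_exists, not_not] at hcon
    obtain ⟨j, _, h1, _⟩ := hcon 0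
    obtain ⟨i, hi, h2, _⟩ := hcon (j + 1)
    have := hinj i j (h2.symm.trans h1)
    omega
  obtain ⟨n, hn⟩ := hK.elim_directed_cover (fun n => (C n)ᶜ) (fun n => (hC n).isOpen_compl) hcov
    (by
      apply directed_of_isDirected_le
      intro m n hmn
      apply compl_subset_compl.2
      rintro p ⟨j, hj, h⟩
      exact ⟨j, hmn.trans hj, h⟩)
  exact hn (hb n) ⟨n, le_rfl, rfl, le_rfl⟩

theorem fin_max (K : Set P) (hK : IsCompact K) (hmax : ∀ p ∈ K, p.2 = ⊤) :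
    {e : X | (mk e ⊤) ∈ K}.Finite := by
  by_contra hinf
  let em := Set.Infinite.natEmbedding _ hinf
  have hb : ∀ j, (mk ((em j).1) ⊤) ∈ K := fun j => (em j).2
  have hinj : ∀ i j, (em i).1 = (em j).1 → i = j := fun i j h => em.injective (Subtype.ext h)
  obtain ⟨s, hs⟩ := bdd (fun j => (em j).1)
  let C : ℕ → Set P := fun n => {p | (∃ j, n ≤ j ∧ p.1 = (em j).1) ∨ p.2 ≤ (s : WithTop X)}
  have hC : ∀ n, IsClosed (C n) := by
    intro n
    apply closed_of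
    · rintro ⟨p1, p2⟩ ⟨q1, q2⟩ hqp hp
      rcases hp with ⟨j, hj, h1⟩ | h1
      · rcases hqp with ⟨h3, h4⟩ | ⟨h3, h4⟩
        · left; exact ⟨j, hj, h3.trans h1⟩
        · right
          simp only at h1 h4 ⊢
          rw [h1] at h4
          exact h4.trans (WithTop.coe_le_coe.2 (hs j))
      · rcases hqp with ⟨h3, h4⟩ | ⟨h3, h4⟩
        · right; exact h4.trans h1
        · simp only at h3 h1
          rw [h3] at h1
          exact (not_top_le _ h1).elim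
    · intro e S hS z hz h
      by_cases hj : ∃ j, n ≤ j ∧ e = (em j).1
      · left; exact hj
      · right
        apply hz.2
        intro t ht
        rcases h t ht with h1 | h1
        · exact absurd h1 hj
        · exact h1
  have hcov : K ⊆ ⋃ n, (C n)ᶜ := by
    intro p hp
    by_contra hcon
    simp only [mem_iUnion, mem_compl_iff, not_exists, not_not] at hcon
    have hpt := hmax p hp
    have hno : ¬ p.2 ≤ (s : WithTop X) := by
      intro h
      rw [hpt] at h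
      exact not_top_le _ h
    obtain ⟨j, _, h1⟩ := (hcon 0).resolve_right hno
    obtain ⟨i, hi, h2⟩ := (hcon (j + 1)).resolve_right hno
    have := hinj i j (h2.symm.trans h1)
    omega
  obtain ⟨n, hn⟩ := hK.elim_directed_cover (fun n => (C n)ᶜ) (fun n => (hC n).isOpen_compl) hcov
    (by
      apply directed_of_isDirected_le
      intro m n hmn
      apply compl_subset_compl.2
      rintro p (⟨j, hj, h⟩ | h)
      · exact Or.inl ⟨j, hmn.trans hj, h⟩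
      · exact Or.inr h)
  exact hn (hb n) (Or.inl ⟨n, le_rfl, rfl⟩)

theorem fin_dir {α β : Type} (𝒦 : Set (Set α)) (hdir : DirectedOn (· ⊇ ·) 𝒦) (K0 : Set α)
    (hK0 : K0 ∈ 𝒦) (S : Set β) (hS : S.Finite) (f : β → Set α) (hf : ∀ e ∈ S, f e ∈ 𝒦) :
    ∃ K ∈ 𝒦, K ⊆ K0 ∧ ∀ e ∈ S, K ⊆ f e := by
  induction S, hS using Set.Finite.induction_on with
  | empty => exact ⟨K0, hK0, subset_rfl, by simp⟩
  | @insert a S _ _ ih =>
    obtain ⟨K, hK, h1, h2⟩ := ih (fun e he => hf e (mem_insert_of_mem _ he))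
    obtain ⟨K', hK', h3, h4⟩ := hdir K hK (f a) (hf a (mem_insert _ _))
    refine ⟨K', hK', Subset.trans h3 h1, ?_⟩
    intro e he
    rcases mem_insert_iff.1 he with rfl | he
    · exact h4
    · exact Subset.trans h3 (h2 e he)

theorem wf (𝒦 : Set (Set P)) (hne : 𝒦.Nonempty) (hdir : DirectedOn (· ⊇ ·) 𝒦)
    (hK : ∀ K ∈ 𝒦, IsCompact K ∧ IsUpperSet K) (U : Set P) (hU : IsOpen U)
    (hsub : ⋂₀ 𝒦 ⊆ U) : ∃ K ∈ 𝒦, K ⊆ U := by
  classical
  by_contra hcon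
  push Not at hcon
  obtain ⟨K0, hK0⟩ := hne
  have hS0 := fin_fibers K0 (hK K0 hK0).1
  set S0 := {e : X | ∃ b : X, (mk e (b : WithTop X)) ∈ K0} with hS0def
  by_cases hI : ∃ e ∈ S0, ∀ K ∈ 𝒦, K ⊆ K0 → ∃ b : X, (mk e (b : WithTop X)) ∈ K ∧
      (mk e (b : WithTop X)) ∉ U
  · obtain ⟨e, he, h⟩ := hI
    let T : Set (WithTop X) := {b | ∃ K ∈ 𝒦, K ⊆ K0 ∧ (∀ b', (mk e b') ∈ K → b ≤ b') ∧
      (mk e b) ∈ K}
    have hmin : ∀ K ∈ 𝒦, K ⊆ K0 → ∃ b, (mk e b) ∈ K ∧ ∀ b', (mk e b') ∈ K → b ≤ b' := by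
      intro K hK1 hK2
      obtain ⟨b, hb, _⟩ := h K hK1 hK2
      obtain ⟨z, hz, hmin⟩ := WellFounded.has_min (wellFounded_lt (α := WithTop X))
        {z | (mk e z) ∈ K} ⟨_, hb⟩
      exact ⟨z, hz, fun b' hb' => not_lt.1 (hmin b' hb')⟩
    obtain ⟨z, hz⟩ := exists_lub T
    have hTne : T.Nonempty := by
      obtain ⟨b, hb1, hb2⟩ := hmin K0 hK0 subset_rfl
      exact ⟨b, K0, hK0, subset_rfl, hb2, hb1⟩
    have hzmem : (mk e z) ∈ ⋂₀ 𝒦 := by
      intro K hK1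
      obtain ⟨K', hK', h1, h2⟩ := hdir K hK1 K0 hK0
      obtain ⟨b, hb1, hb2⟩ := hmin K' hK' h2
      have hbz : b ≤ z := hz.1 ⟨K', hK', h2, hb2, hb1⟩
      exact h1 ((hK K' hK').2 (mk_le hbz) hb1)
    obtain ⟨b, ⟨K, hK1, hK2, hb1, hb2⟩, hbU⟩ := hU.2 e T hTne z hz (hsub hzmem)
    obtain ⟨b', hb', hb'U⟩ := h K hK1 hK2
    exact hb'U (hU.1 (mk_le (hb1 _ hb')) hbU)
  · push Not at hI
    have hI' : ∀ e, ∃ K ∈ 𝒦, e ∈ S0 → (K ⊆ K0 ∧ ∀ b : X, (mk e (b : WithTop X)) ∈ K →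
        (mk e (b : WithTop X)) ∈ U) := by
      intro e
      by_cases he : e ∈ S0
      · obtain ⟨K, hK1, hK2, hK3⟩ := hI e he
        exact ⟨K, hK1, fun _ => ⟨hK2, hK3⟩⟩
      · exact ⟨K0, hK0, fun h => absurd h he⟩
    choose f hf1 hf2 using hI'
    obtain ⟨K1, hK1, h1, h2⟩ := fin_dir 𝒦 hdir K0 hK0 S0 hS0 f (fun e _ => hf1 e)
    have hmax : ∀ p ∈ K1 ∩ Uᶜ, p.2 = ⊤ := by
      rintro ⟨e, b⟩ ⟨hp1, hp2⟩
      by_contra hb
      obtain ⟨b', hb'⟩ := WithTop.ne_top_iff_exists.1 hb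
      simp only at hb'
      subst hb'
      have he : e ∈ S0 := ⟨b', h1 hp1⟩
      exact hp2 ((hf2 e he).2 b' (h2 e he hp1))
    have hcomp : IsCompact (K1 ∩ Uᶜ) := (hK K1 hK1).1.inter_right hU.isClosed_compl
    have hfin := fin_max _ hcomp hmax
    by_cases hall : ∃ e, (mk e ⊤) ∈ K1 ∩ Uᶜ ∧ ∀ K ∈ 𝒦, (mk e ⊤) ∈ K
    · obtain ⟨e, he1, he2⟩ := hall
      exact he1.2 (hsub (fun K hK => he2 K hK))
    · push Not at hall
      have hg : ∀ e, ∃ K ∈ 𝒦, (mk e ⊤) ∈ K1 ∩ Uᶜ → (mk e ⊤) ∉ K := by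
        intro e
        by_cases he : (mk e ⊤) ∈ K1 ∩ Uᶜ
        · obtain ⟨K, hK1, hK2⟩ := hall e he
          exact ⟨K, hK1, fun _ => hK2⟩
        · exact ⟨K0, hK0, fun h => absurd h he⟩
      choose g hg1 hg2 using hg
      obtain ⟨K2, hK2, h3, h4⟩ := fin_dir 𝒦 hdir K1 hK1 _ hfin g (fun e _ => hg1 e)
      apply hcon K2 hK2
      intro p hp
      by_contra hpU
      have hp1 : p ∈ K1 ∩ Uᶜ := ⟨h3 hp, hpU⟩
      have hpt := hmax p hp1
      have hpe : p = (mk (p.1) ⊤) := Prod.ext rfl hpt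
      have hp2 : (mk (p.1) ⊤) ∈ K1 ∩ Uᶜ := by rwa [← hpe]
      exact hg2 p.1 hp2 (by rw [← hpe]; exact h4 p.1 hp2 hp)

theorem t0 : T0Space P := by
  rw [t0Space_iff_inseparable]
  intro x y h
  rw [inseparable_iff_closure_eq, closure_pt, closure_pt] at h
  exact le_antisymm (h ▸ le_refl x : x ∈ Set.Iic (α := P) y)
    (h.symm ▸ le_refl y : y ∈ Set.Iic (α := P) x)

theorem not_sober (t : TopologicalSpace P) (hc : ∀ x : P, @closure P t {x} = Set.Iic (α := P) x)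
    (hs : @QuasiSober P t) : False := by
  -- opens are upper sets
  have hup : ∀ U : Set P, @IsOpen P t U → ∀ x y : P, x ≤ y → x ∈ U → y ∈ U := by
    intro U hU x y hxy hx
    have hx' : x ∈ @closure P t {y} := by rw [hc]; exact hxy
    obtain ⟨z, hz, hz2⟩ := (@mem_closure_iff P t _ _).1 hx' U hU hx
    rw [mem_singleton_iff.1 hz2] at hz
    exact hz
  -- max elements are limits of fibres
  have hlim : ∀ (e : X) (U : Set P), @IsOpen P t U → mk e ⊤ ∈ U → ∃ b : X, mk e (b : WithTop X) ∈ U := by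
    intro e U hU heU
    let S : Set P := {p | ∃ b : X, p = mk e (b : WithTop X)}
    have hirr : @IsIrreducible P t S := by
      refine ⟨⟨mk e ((Classical.arbitrary X : X) : WithTop X), _, rfl⟩, ?_⟩
      rintro U1 U2 hU1 hU2 ⟨_, ⟨b1, rfl⟩, h1⟩ ⟨_, ⟨b2, rfl⟩, h2⟩
      refine ⟨mk e ((max b1 b2 : X) : WithTop X), ⟨_, rfl⟩, ?_, ?_⟩
      · exact hup U1 hU1 _ _ (mk_le (WithTop.coe_le_coe.2 (le_max_left _ _))) h1
      · exact hup U2 hU2 _ _ (mk_le (WithTop.coe_le_coe.2 (le_max_right _ _))) h2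
    obtain ⟨⟨c, f⟩, hx⟩ := @QuasiSober.sober P t hs _ (@IsIrreducible.closure P t _ hirr)
      (@isClosed_closure P t _)
    have hx' : @closure P t S = Set.Iic (α := P) (mk c f) := by
      rw [← hc]; exact hx.symm
    have hub : ∀ b : X, mk e (b : WithTop X) ≤ mk c f := by
      intro b
      have : mk e (b : WithTop X) ∈ @closure P t S := @subset_closure P t _ _ ⟨b, rfl⟩
      rw [hx'] at this
      exact this
    have hce : e = c := by
      by_contra hne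
      obtain ⟨b, hb⟩ := exists_gt c
      rcases hub b with ⟨h1, _⟩ | ⟨_, h2⟩
      · exact hne h1
      · exact absurd (WithTop.coe_le_coe.1 h2) (not_le.2 hb)
    have hf : f = ⊤ := by
      by_contra hne
      obtain ⟨g, hg⟩ := WithTop.ne_top_iff_exists.1 hne
      obtain ⟨b, hb⟩ := exists_gt g
      rcases hub b with ⟨_, h2⟩ | ⟨h2, _⟩
      · have h3 : (b : WithTop X) ≤ (g : WithTop X) := by rw [hg]; exact h2
        exact absurd (WithTop.coe_le_coe.1 h3) (not_le.2 hb)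
      · exact hne h2
    subst hce
    subst hf
    have : mk e ⊤ ∈ @closure P t S := by rw [hx']; exact le_refl (mk e ⊤)
    obtain ⟨_, h1, ⟨b, rfl⟩⟩ := (@mem_closure_iff P t _ _).1 this U hU heU
    exact ⟨b, h1⟩
  have htail : ∀ U : Set P, @IsOpen P t U → U.Nonempty → ∃ b : X, ∀ c : X, b ≤ c → mk c ⊤ ∈ U := by
    rintro U hU ⟨⟨e, f⟩, hp⟩
    have h1 : mk e ⊤ ∈ U := hup U hU _ _ (mk_le le_top) hp
    obtain ⟨b, hb⟩ := hlim e U hU h1
    refine ⟨b, fun c hbc => ?_⟩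
    exact hup U hU _ _ (Or.inr ⟨rfl, WithTop.coe_le_coe.2 hbc⟩) hb
  have hirr : @IsIrreducible P t univ := by
    refine ⟨⟨mk (Classical.arbitrary X) ⊤, trivial⟩, ?_⟩
    rintro U1 U2 hU1 hU2 ⟨p1, _, h1⟩ ⟨p2, _, h2⟩
    obtain ⟨b1, hb1⟩ := htail U1 hU1 ⟨p1, h1⟩
    obtain ⟨b2, hb2⟩ := htail U2 hU2 ⟨p2, h2⟩
    exact ⟨mk (max b1 b2) ⊤, trivial, hb1 _ (le_max_left _ _), hb2 _ (le_max_right _ _)⟩
  obtain ⟨⟨c, f⟩, hx⟩ := @QuasiSober.sober P t hs _ hirr (@isClosed_univ P t)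
  have hx' : (univ : Set P) = Set.Iic (α := P) (mk c f) := by
    rw [← hc]; exact hx.symm
  obtain ⟨d, hd⟩ := exists_gt c
  have h1 : mk d ⊤ ∈ (univ : Set P) := trivial
  rw [hx'] at h1
  rcases h1 with ⟨h2, _⟩ | ⟨_, h2⟩
  · exact absurd h2 (ne_of_gt hd)
  · exact not_top_le _ h2

theorem main :
    ∃ (P : Type) (_ : PartialOrder P),
      (∀ d : Set P, d.Nonempty → DirectedOn (· ≤ ·) d → ∃ x : P, IsLUB d x) ∧
      (∃ t : TopologicalSpace P,
        (∀ x : P, @closure P t {x} = Set.Iic x) ∧ @T0Space P t ∧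
        (∀ 𝒦 : Set (Set P), 𝒦.Nonempty → DirectedOn (· ⊇ ·) 𝒦 →
          (∀ K ∈ 𝒦, @IsCompact P t K ∧ IsUpperSet K) →
          ∀ U : Set P, @IsOpen P t U → ⋂₀ 𝒦 ⊆ U → ∃ K ∈ 𝒦, K ⊆ U)) ∧
      ¬ ∃ t : TopologicalSpace P,
        (∀ x : P, @closure P t {x} = Set.Iic x) ∧ @T0Space P t ∧ @QuasiSober P t := by
  refine ⟨P, inferInstance, dcpo, ⟨tp, closure_pt, t0, wf⟩, ?_⟩
  rintro ⟨t, h1, _, h2⟩
  exact not_sober t h1 h2

end Pool.Agent.DC10
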